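import Mathlib
import Pool.Agent.H590.PL.Stm

set_option autoImplicit false

noncomputable section

open MeasureTheory Filter Topology Set
open scoped BigOperators

namespace H457PL

open H590PL

/-- integrability of `exp(-|x|/2)` -/
theorem int_exp_abs : Integrable (fun x : ℝ => Real.exp (-(|x| / 2))) := by
  have h1 : IntegrableOn (fun x : ℝ => Real.exp (-(|x| / 2))) (Ioi 0) := by
    have h2 := integrableOn_exp_mul_Ioi (a := -(1 / 2 : ℝ)) (by norm_num) 0
    refine h2.congr_fun (fun x hx => ?_) measurableSet_Ioi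
    have hx' : 0 < x := hx
    simp only []
    rw [abs_of_pos hx']
    congr 1
    ring
  have h3 : IntegrableOn (fun x : ℝ => Real.exp (-(|x| / 2))) (Iic 0) := by
    have h2 := integrableOn_exp_mul_Iic (a := (1 / 2 : ℝ)) (by norm_num) 0
    refine h2.congr_fun (fun x hx => ?_) measurableSet_Iic
    have hx' : x ≤ 0 := hx
    simp only []
    rw [abs_of_nonpos hx']
    congr 1
    ring
  have h4 := h3.union h1
  rwa [Iic_union_Ioi, integrableOn_univ] at h4

theorem int_bound (N : ℝ) : Integrable (fun x : P2 =>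
    Real.exp N * (Real.exp (-(|x.1| / 2)) * Real.exp (-(|x.2| / 2)))) := by
  refine Integrable.const_mul ?_ _
  exact Integrable.mul_prod int_exp_abs int_exp_abs

section

variable {κ : Type} [Fintype κ]

/-- sum of squares -/
theorem sum_ip {v : κ → P2} (hv : Nrm v) (x : P2) :
    ∑ k, (ip (v k) x) ^ 2 = x.1 ^ 2 + x.2 ^ 2 := by
  obtain ⟨h1, h2, h3⟩ := hv
  have h4 : ∀ k, (ip (v k) x) ^ 2 = x.1 ^ 2 * (v k).1 ^ 2 + x.2 ^ 2 * (v k).2 ^ 2 +
      2 * x.1 * x.2 * ((v k).1 * (v k).2) := by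
    intro k
    unfold ip
    ring
  simp_rw [h4]
  rw [Finset.sum_add_distrib, Finset.sum_add_distrib, ← Finset.mul_sum, ← Finset.mul_sum,
    ← Finset.mul_sum, h1, h2, h3]
  ring

theorem sum_abs_ge {v : κ → P2} (hv : Nrm v) (x : P2) :
    |x.1| / 2 + |x.2| / 2 ≤ ∑ k, |ip (v k) x| := by
  have h1 : ∑ k, |ip (v k) x| ^ 2 ≤ (∑ k, |ip (v k) x|) ^ 2 :=
    Finset.sum_sq_le_sq_sum_of_nonneg fun k _ => abs_nonneg _
  have h2 : ∑ k, |ip (v k) x| ^ 2 = x.1 ^ 2 + x.2 ^ 2 := by
    simp_rw [sq_abs]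
    exact sum_ip hv x
  rw [h2] at h1
  have h3 : 0 ≤ ∑ k, |ip (v k) x| := Finset.sum_nonneg fun k _ => abs_nonneg _
  have h4 : |x.1| ≤ ∑ k, |ip (v k) x| := abs_le_of_sq_le_sq (by nlinarith [sq_nonneg x.2]) h3
  have h5 : |x.2| ≤ ∑ k, |ip (v k) x| := abs_le_of_sq_le_sq (by nlinarith [sq_nonneg x.1]) h3
  linarith

theorem Ph_ge {q : ℝ} (hq : 1 ≤ q) {v : κ → P2} (hv : Nrm v) (x : P2) :
    |x.1| / 2 + |x.2| / 2 - Fintype.card κ ≤ Ph q v one x := by
  have h1 : ∀ k : κ, |ip (v k) x| - 1 ≤ one k * |ip (v k) x| ^ q := by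
    intro k
    unfold one
    rw [one_mul]
    rcases le_total 1 |ip (v k) x| with h | h
    · have h2 : |ip (v k) x| ^ (1 : ℝ) ≤ |ip (v k) x| ^ q :=
        Real.rpow_le_rpow_of_exponent_le h hq
      rw [Real.rpow_one] at h2
      linarith
    · have h2 : 0 ≤ |ip (v k) x| ^ q := Real.rpow_nonneg (abs_nonneg _) _
      linarith
  have h2 : ∑ k : κ, (|ip (v k) x| - 1) ≤ Ph q v one x := Finset.sum_le_sum fun k _ => h1 k
  rw [Finset.sum_sub_distrib] at h2
  simp only [Finset.sum_const, Finset.card_univ, nsmul_eq_mul, mul_one] at h2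
  have h3 := sum_abs_ge hv x
  linarith

theorem ip_cont (x : P2) (k : κ) :
    Continuous (fun q : ℝ × (κ → P2) => ip (q.2 k) x) := by
  unfold ip
  fun_prop

theorem ip_cont' (v : P2) : Continuous (fun x : P2 => ip v x) := by
  unfold ip
  fun_prop

end

theorem CF : S_CF := by
  intro κ _ p0 hp0 hp2
  intro q0 hq0
  have hq0' : 1 < q0.1 := lt_of_lt_of_le hp0 hq0.1.1
  have hmem : ∀ᶠ q : ℝ × (κ → P2) in 𝓝[Icc p0 2 ×ˢ {v : κ → P2 | Nrm v}] q0,
      q ∈ Icc p0 2 ×ˢ {v : κ → P2 | Nrm v} := self_mem_nhdsWithin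
  refine MeasureTheory.continuousWithinAt_of_dominated (bound := fun x : P2 =>
    Real.exp (Fintype.card κ : ℝ) * (Real.exp (-(|x.1| / 2)) * Real.exp (-(|x.2| / 2))))
    ?_ ?_ (int_bound _) ?_
  · filter_upwards [hmem] with q hq
    have hq1 : 0 < q.1 := lt_trans one_pos (lt_of_lt_of_le hp0 hq.1.1)
    refine Continuous.aestronglyMeasurable ?_
    unfold Ph
    refine Real.continuous_exp.comp (Continuous.neg ?_)
    refine continuous_finset_sum _ fun k _ => ?_
    refine continuous_const.mul ?_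
    exact (ip_cont' (q.2 k)).abs.rpow_const fun x => Or.inr hq1.le
  · filter_upwards [hmem] with q hq
    refine Eventually.of_forall fun x => ?_
    rw [Real.norm_eq_abs, Real.abs_exp, ← Real.exp_add, ← Real.exp_add]
    refine Real.exp_le_exp.2 ?_
    have h1 := Ph_ge (lt_of_lt_of_le hp0 hq.1.1).le hq.2 x
    linarith
  · refine Eventually.of_forall fun x => ?_
    refine ContinuousAt.continuousWithinAt ?_
    refine Real.continuous_exp.continuousAt.comp ?_
    refine ContinuousAt.neg ?_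
    unfold Ph
    refine tendsto_finset_sum _ fun k _ => ?_
    refine ContinuousAt.mul continuousAt_const ?_
    refine ContinuousAt.rpow ?_ continuous_fst.continuousAt (Or.inr (lt_trans one_pos hq0'))
    exact (ip_cont x k).abs.continuousAt

end H457PL
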